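import Mathlib
import Pool.Agent.H319B.Final

/-!
# One large irreducible factor of every reduced odd-index Bernoulli polynomial of large degree

For every sufficiently large odd `n` the polynomial `R_n = B_n / (x (x - 1/2) (x - 1))`, of degree
`n - 3`, has an irreducible factor of degree at least `n - 3 - 5 √(n / log n)`.

The proof is that of the starting library (`Pool/Agent/H319B/Final.lean`, `large_irreducible`), where
the theorem is stated for every large odd `n`; it was not handed in (the hand-in of the starting
files on this page is on `n = q + 2`, `q` prime, only).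
-/

set_option autoImplicit false

namespace Pool.Agent.Results.MP_f85b9b_nt.LargeFactorEveryOddDegree

open Polynomial Pool.Agent.H319B

theorem result : ∃ n₀ : ℕ, ∀ n : ℕ, n₀ ≤ n → Odd n → ∃ R f : ℚ[X],
    Polynomial.bernoulli n = X * (X - C (1 / 2)) * (X - C 1) * R ∧ R.natDegree = n - 3 ∧
    Irreducible f ∧ f ∣ R ∧
    (n : ℝ) - 3 - 5 * Real.sqrt (n / Real.log n) ≤ f.natDegree := by
  obtain ⟨n₀, h⟩ := large_irreducible
  refine ⟨n₀ + 3, fun n hn ho => ?_⟩
  obtain ⟨f, h1, h2, h3⟩ := h n (by omega) ho
  obtain ⟨e1, -, e3⟩ := Rn_spec n (by omega) ho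
  exact ⟨Rn n, f, e1, e3, h1, h2, h3⟩

end Pool.Agent.Results.MP_f85b9b_nt.LargeFactorEveryOddDegree
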