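import Pool.Agent.L7h34.BO.Fin
import Pool.Agent.L7h15.BO.Big
import Pool.Agent.L7h40.BO.Fin
import Pool.Agent.L7h6.BO.Cyc
import Pool.Agent.L7h29.BP.Fac

set_option autoImplicit false

/-!
# MP_f85b9b_nt: the polynomials `R_(rq+2)`

For every fixed odd `r` and almost all primes `q` the polynomial `R_(rq+2)`, of degree `rq - 1`, has an
irreducible factor of degree at least `r (q - 1)`; so the product of all its other irreducible factors has
degree at most `r - 1`.

Method: (1) for large odd `n` one of two complementary factors of `R_n` has degree `O(√(n / log n))`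
(starting library H319B); (2) modulo 2 the polynomial `R_(rq+2)` is `(1+x)^(rq) + x^(rq)`, and a factor of
degree less than the order of 2 mod `q` divides `(1+x)^r + x^r`; (3) few primes `q` have a small order of 2.
Parts by helpers 6, 15, 29, 34, 40.
-/

namespace Pool.Agent.Results.MP_f85b9b_nt.MultiplesOfPrimes

open Polynomial

/-- Here `R = B_n / (x (x - 1/2) (x - 1))` with `n = rq + 2`. -/
theorem result : ∀ r : ℕ, Odd r → ∃ K : ℝ, 0 < K ∧ ∃ x₀ : ℕ, ∀ x : ℕ, x₀ ≤ x →
    ({q : ℕ | q ≤ x ∧ q.Prime ∧ q ≠ 2 ∧ ¬ ∃ R h : ℚ[X],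
      Polynomial.bernoulli (r * q + 2) = X * (X - C (1 / 2)) * (X - C 1) * R ∧
        Irreducible h ∧ h ∣ R ∧ r * (q - 1) ≤ h.natDegree}.ncard : ℝ) ≤
      K * x / (Real.log x) ^ 2 := by
  have hS := Pool.Agent.L7h6.BO.s_SMALL Pool.Agent.L7h6.BO.s_CYC
  have hBIG := Pool.Agent.L7h15.BO.s_BIG hS Pool.Agent.L7h29.BP.s_FAC
  exact Pool.Agent.L7h34.BO.claim1_of (Pool.Agent.L7h40.BO.s_FIN1 hBIG)

end Pool.Agent.Results.MP_f85b9b_nt.MultiplesOfPrimes
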