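import Pool.Agent.L7h34.BO.Polg
import Pool.Agent.L7h73.BO.Mtp
import Pool.Agent.L7h93.BO.Qua
import Pool.Agent.L7h40.BO.FinQ
import Pool.Agent.L7h89.BO.Redo
import Pool.Agent.L7h9.BO.Nrto
import Pool.Agent.L7h37.BO.Ceno
import Pool.Agent.L7h63.BP.Bad
import Pool.Agent.L7h10.BP.SIZ
import Pool.Agent.L7h10.BP.DDF
import Pool.Agent.L7h30.BP.Tda
import Pool.Agent.L7h30.BP.Tad

set_option autoImplicit false

/-!
# MP_f85b9b_nt: quadratic factors of the reduced Bernoulli polynomials of odd index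

For every odd `n ≥ 5` a monic quadratic factor of `R_n` has the form `x^2 - x + c`, and it exists only if
`n = 2` mod 3.  For all but `O(N^(5/6))` odd `n ≤ N` the number `c` is an integer and `n = 1` or `3` mod 8.  So `R_n`
has no quadratic factor for all odd `n` outside two of the twelve odd classes mod 24, up to a thin set.

Method: `R_n` mod 2 is `(1+x)^(n-2) + x^(n-2)`, which is separable; modulo 3 the sum `∑_a (x+a)^n` has no further zero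
in the field with nine elements for `n = 5` or `7` mod 8; otherwise `3 c` is an integer prime to 3, and the number of such
`n ≤ N` is `O(N^(5/6))` by the 3-adic determinant method of project BP (MP_b354c3_nt).
Parts by helpers 9, 10, 30, 34, 37, 40, 58, 61, 63, 73, 89, 93.
-/

namespace Pool.Agent.Results.MP_f85b9b_nt.QuadraticFactors

open Polynomial

/-- Here `R = B_n / (x (x - 1/2) (x - 1))`. -/
theorem result :
    (∀ n : ℕ, 5 ≤ n → Odd n → ∀ R g : ℚ[X],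
      Polynomial.bernoulli n = X * (X - C (1 / 2)) * (X - C 1) * R → g.Monic → g ∣ R →
      g.natDegree = 2 → n % 3 = 2 ∧ ∃ c : ℚ, g = X ^ 2 - X + C c) ∧
    ∃ K : ℝ, 0 < K ∧ ∀ N : ℕ, 1 ≤ N →
      ({n : ℕ | n ≤ N ∧ Odd n ∧ 5 ≤ n ∧ ∃ R g : ℚ[X],
        Polynomial.bernoulli n = X * (X - C (1 / 2)) * (X - C 1) * R ∧ g.Monic ∧ g ∣ R ∧
          g.natDegree = 2 ∧ ¬ ((n % 8 = 1 ∨ n % 8 = 3) ∧
            ∃ c : ℤ, g = X ^ 2 - X + C (c : ℚ))}.ncard : ℝ) ≤ K * (N : ℝ) ^ (5 / 6 : ℝ) := by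
  have hQ := Pool.Agent.L7h93.BO.s_QUA Pool.Agent.L7h73.BO.s_MTP
  have hP := Pool.Agent.L7h34.BO.s_POLG Pool.Agent.L7h89.BO.s_REDO Pool.Agent.L7h9.BO.s_NRTO
  have hBAD := Pool.Agent.L7h63.BP.s_BAD Pool.Agent.L7h10.BP.s_SIZ
    (Pool.Agent.L7h10.BP.s_DDF (Pool.Agent.L7h30.BP.s_TAD Pool.Agent.L7h30.BP.s_TDA))
  have hF := Pool.Agent.L7h40.BO.s_FINQ hQ hP Pool.Agent.L7h37.BO.s_CENO hBAD
  refine ⟨?_, ?_⟩
  · intro n hn ho R g hR hg hgR hd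
    rw [Pool.Agent.H319B.eq_Rn n (by omega) ho R hR] at hgR
    obtain ⟨h1, h2⟩ := hQ n hn ho g hg hgR hd
    refine ⟨h1, ?_⟩
    obtain ⟨a1, c, ha1, hfc⟩ := Pool.Agent.L7h10.BP.sym_shape g hd h2
    refine ⟨c, ?_⟩
    have h3 : g.leadingCoeff = a1 := by
      have hm : (X ^ 2 - X + C c : ℚ[X]).leadingCoeff = 1 := by
        have : (X ^ 2 - X + C c : ℚ[X]).Monic := by monicity!
        exact this
      rw [hfc, leadingCoeff_mul, leadingCoeff_C, hm, mul_one]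
    rw [hg.leadingCoeff] at h3
    rw [hfc, ← h3, C_1, one_mul]
  · obtain ⟨K, hK, h⟩ := hF
    refine ⟨K, hK, fun N hN => le_trans ?_ (h N hN)⟩
    have hfin : ({n : ℕ | n ≤ N ∧ Odd n ∧ 5 ≤ n ∧ ∃ g : ℚ[X], g.Monic ∧
        g ∣ Pool.Agent.H319B.Rn n ∧ g.natDegree = 2 ∧ ¬ (n % 3 = 2 ∧ (n % 8 = 1 ∨ n % 8 = 3) ∧
          ∃ c : ℤ, g = X ^ 2 - X + C (c : ℚ))}).Finite :=
      (Set.finite_Iic N).subset (fun q hq => hq.1)
    have hsub : {n : ℕ | n ≤ N ∧ Odd n ∧ 5 ≤ n ∧ ∃ R g : ℚ[X],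
        Polynomial.bernoulli n = X * (X - C (1 / 2)) * (X - C 1) * R ∧ g.Monic ∧ g ∣ R ∧
          g.natDegree = 2 ∧ ¬ ((n % 8 = 1 ∨ n % 8 = 3) ∧
            ∃ c : ℤ, g = X ^ 2 - X + C (c : ℚ))} ⊆
        {n : ℕ | n ≤ N ∧ Odd n ∧ 5 ≤ n ∧ ∃ g : ℚ[X], g.Monic ∧
          g ∣ Pool.Agent.H319B.Rn n ∧ g.natDegree = 2 ∧ ¬ (n % 3 = 2 ∧ (n % 8 = 1 ∨ n % 8 = 3) ∧
            ∃ c : ℤ, g = X ^ 2 - X + C (c : ℚ))} := by
      rintro n ⟨h1, h2, h3, R, g, hR, hg, hgR, hd, hn⟩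
      rw [Pool.Agent.H319B.eq_Rn n (by omega) h2 R hR] at hgR
      exact ⟨h1, h2, h3, g, hg, hgR, hd, fun h4 => hn h4.2⟩
    exact_mod_cast Set.ncard_le_ncard hsub hfin

end Pool.Agent.Results.MP_f85b9b_nt.QuadraticFactors
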