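import Pool.Agent.L7h34.BO.Fin
import Pool.Agent.L7h40.BO.Fin
import Pool.Agent.L7h6.BO.Cyc
import Pool.Agent.L7h61.BO.Polo
import Pool.Agent.L7h89.BO.Redo
import Pool.Agent.L7h9.BO.Nrto
import Pool.Agent.L7h37.BO.Ceno
import Pool.Agent.L7h63.BP.Bad
import Pool.Agent.L7h10.BP.SIZ
import Pool.Agent.L7h10.BP.DDF
import Pool.Agent.L7h30.BP.Tda
import Pool.Agent.L7h30.BP.Tad

set_option autoImplicit false

/-!
# MP_f85b9b_nt: the polynomials `R_(3q+2)`

For almost all primes `q` with `q = 1` or `7` mod 8 the reduced Bernoulli polynomial `R_(3q+2)` is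
irreducible over `ℚ`.

Method: (1) for large odd `n` one of two complementary factors of `R_n` has degree `O(√(n / log n))`
(starting library H319B); (2) modulo 2 the polynomial `R_(3q+2)` is `(1+x)^(3q) + x^(3q)`, and a factor of
degree less than the order of 2 mod `q` divides `1 + x + x^2`; (3) so only a quadratic factor `x^2 - x + c`
remains; modulo 3, `∑_a (x+a)^n` has no further zero in the field with nine elements if `n = 5` or `7` mod 8, so
that `3 c` is an integer prime to 3; the number of such `n ≤ N` is `O(N^(5/6))` by the 3-adic determinant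
method of project BP (MP_b354c3_nt).
Parts by helpers 6, 9, 10, 30, 34, 37, 40, 58, 61, 63, 89.
-/

namespace Pool.Agent.Results.MP_f85b9b_nt.ThreeTimesPrimes

open Polynomial Filter

/-- Here `R = B_n / (x (x - 1/2) (x - 1))` with `n = 3q + 2`. -/
theorem result :
    (∃ K : ℝ, 0 < K ∧ ∃ x₀ : ℕ, ∀ x : ℕ, x₀ ≤ x →
      ({q : ℕ | q ≤ x ∧ q.Prime ∧ (q % 8 = 1 ∨ q % 8 = 7) ∧ ¬ ∃ R : ℚ[X],
        Polynomial.bernoulli (3 * q + 2) = X * (X - C (1 / 2)) * (X - C 1) * R ∧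
          Irreducible R}.ncard : ℝ) ≤ K * x / (Real.log x) ^ 2) ∧
    ∀ a : ℕ, a = 1 ∨ a = 7 → Tendsto (fun x : ℕ =>
      ({q : ℕ | q ≤ x ∧ q.Prime ∧ q % 8 = a ∧ ¬ ∃ R : ℚ[X],
        Polynomial.bernoulli (3 * q + 2) = X * (X - C (1 / 2)) * (X - C 1) * R ∧
          Irreducible R}.ncard : ℝ) /
        ({q : ℕ | q ≤ x ∧ q.Prime ∧ q % 8 = a}.ncard : ℝ)) atTop (nhds 0) := by
  have hS := Pool.Agent.L7h6.BO.s_SMALL Pool.Agent.L7h6.BO.s_CYC
  have hP := Pool.Agent.L7h61.BO.s_POLO Pool.Agent.L7h89.BO.s_REDO Pool.Agent.L7h9.BO.s_NRTO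
  have hI := Pool.Agent.L7h34.BO.s_IRR hS hP Pool.Agent.L7h37.BO.s_CENO
  have hBAD := Pool.Agent.L7h63.BP.s_BAD Pool.Agent.L7h10.BP.s_SIZ
    (Pool.Agent.L7h10.BP.s_DDF (Pool.Agent.L7h30.BP.s_TAD Pool.Agent.L7h30.BP.s_TDA))
  exact Pool.Agent.L7h34.BO.claim2_of (Pool.Agent.L7h40.BO.s_FIN2 hI hBAD)

end Pool.Agent.Results.MP_f85b9b_nt.ThreeTimesPrimes
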